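import Pool.Agent.H867.FT.Gen

/-! The maximal ideal of a power series ring over a field and the orders of power series. -/

set_option autoImplicit false

namespace Pool.Agent.H707.FT867

open MvPowerSeries

variable {k : Type} [Field k] {d : ℕ}

/-- the monomials of `f` whose first variable is `x_i`, divided by `x_i` -/
noncomputable def part (f : MvPowerSeries (Fin d) k) (i : Fin d) : MvPowerSeries (Fin d) k :=
  fun m => if ∀ j, j < i → m j = 0 then coeff (m + Finsupp.single i 1) f else 0

theorem coeff_part (f : MvPowerSeries (Fin d) k) (i : Fin d) (m : Fin d →₀ ℕ) :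
    coeff m (part f i) = if ∀ j, j < i → m j = 0 then coeff (m + Finsupp.single i 1) f else 0 :=
  rfl

theorem coeff_X_mul (i : Fin d) (m : Fin d →₀ ℕ) (f : MvPowerSeries (Fin d) k) :
    coeff m (X i * f) = if Finsupp.single i 1 ≤ m then coeff (m - Finsupp.single i 1) f else 0 := by
  classical
  have h : (X i : MvPowerSeries (Fin d) k) = monomial (Finsupp.single i 1) 1 := rfl
  rw [h, coeff_monomial_mul, one_mul]

theorem sum_part (f : MvPowerSeries (Fin d) k) (hf : constantCoeff f = 0) :
    f = ∑ i, X i * part f i := by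
  classical
  ext m
  rw [map_sum]
  by_cases hm : m = 0
  · subst hm
    have h0 : coeff (0 : Fin d →₀ ℕ) f = 0 := hf
    rw [h0]
    refine (Finset.sum_eq_zero fun i _ => ?_).symm
    exact coeff_zero_X_mul _ _
  · have hex : ∃ i, m i ≠ 0 := by
      by_contra h
      push Not at h
      exact hm (Finsupp.ext h)
    obtain ⟨i₀, hi₀, hmin⟩ : ∃ i₀, m i₀ ≠ 0 ∧ ∀ j, j < i₀ → m j = 0 := by
      have hne : (Finset.univ.filter fun i => m i ≠ 0).Nonempty := by
        obtain ⟨i, hi⟩ := hex
        exact ⟨i, Finset.mem_filter.2 ⟨Finset.mem_univ _, hi⟩⟩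
      refine ⟨(Finset.univ.filter fun i => m i ≠ 0).min' hne, ?_, ?_⟩
      · exact (Finset.mem_filter.1 (Finset.min'_mem _ hne)).2
      · intro j hj
        by_contra h
        have := Finset.min'_le (Finset.univ.filter fun i => m i ≠ 0) j
          (Finset.mem_filter.2 ⟨Finset.mem_univ _, h⟩)
        exact absurd hj (not_lt.2 this)
    have hle : Finsupp.single i₀ 1 ≤ m := by
      rw [Finsupp.single_le_iff]
      omega
    rw [Finset.sum_eq_single i₀]
    · rw [coeff_X_mul, if_pos hle, coeff_part, if_pos, tsub_add_cancel_of_le hle]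
      intro j hj
      rw [Finsupp.coe_tsub, Pi.sub_apply, hmin j hj, Nat.zero_sub]
    · intro i _ hi
      rw [coeff_X_mul]
      by_cases h1 : Finsupp.single i 1 ≤ m
      · rw [if_pos h1, coeff_part, if_neg]
        intro h2
        have hi' : m i ≠ 0 := by
          rw [Finsupp.single_le_iff] at h1
          omega
        have hlt : i₀ < i := by
          rcases lt_trichotomy i₀ i with h | h | h
          · exact h
          · exact absurd h.symm hi
          · exact absurd (hmin i h) hi'
        have h3 := h2 i₀ hlt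
        rw [Finsupp.coe_tsub, Pi.sub_apply, Finsupp.single_apply, if_neg hi, Nat.sub_zero] at h3
        exact hi₀ h3
      · rw [if_neg h1]
    · intro h
      exact absurd (Finset.mem_univ _) h

theorem le_order_part (f : MvPowerSeries (Fin d) k) (n : ℕ) (hf : ((n + 1 : ℕ) : ℕ∞) ≤ f.order)
    (i : Fin d) : (n : ℕ∞) ≤ (part f i).order := by
  refine nat_le_order fun m hm => ?_
  rw [coeff_part]
  split_ifs
  · refine coeff_of_lt_order (lt_of_lt_of_le ?_ hf)
    rw [map_add, Finsupp.degree_single]
    exact_mod_cast Nat.succ_lt_succ hm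
  · rfl

theorem mem_max {f : MvPowerSeries (Fin d) k} :
    f ∈ IsLocalRing.maximalIdeal (MvPowerSeries (Fin d) k) ↔ constantCoeff f = 0 := by
  rw [IsLocalRing.mem_maximalIdeal, mem_nonunits_iff, isUnit_iff_constantCoeff, isUnit_iff_ne_zero,
    not_not]

theorem X_mem (i : Fin d) :
    (X i : MvPowerSeries (Fin d) k) ∈ IsLocalRing.maximalIdeal (MvPowerSeries (Fin d) k) := by
  rw [mem_max, constantCoeff_X]

theorem mem_pow (n : ℕ) : ∀ f : MvPowerSeries (Fin d) k, (n : ℕ∞) ≤ f.order →
    f ∈ IsLocalRing.maximalIdeal (MvPowerSeries (Fin d) k) ^ n := by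
  induction n with
  | zero =>
    intro f _
    rw [pow_zero, Ideal.one_eq_top]
    exact Submodule.mem_top
  | succ n ih =>
    intro f hf
    have h0 : constantCoeff f = 0 := by
      rw [← one_le_order_iff_constCoeff_eq_zero]
      refine le_trans ?_ hf
      exact_mod_cast Nat.succ_le_succ (Nat.zero_le n)
    rw [sum_part f h0, pow_succ']
    exact Ideal.sum_mem _ fun i _ => Ideal.mul_mem_mul (X_mem i) (ih _ (le_order_part f n hf i))

theorem order_of_mem (n : ℕ) : ∀ f : MvPowerSeries (Fin d) k,
    f ∈ IsLocalRing.maximalIdeal (MvPowerSeries (Fin d) k) ^ n → (n : ℕ∞) ≤ f.order := by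
  induction n with
  | zero =>
    intro f _
    exact_mod_cast bot_le
  | succ n ih =>
    intro f hf
    rw [pow_succ'] at hf
    refine Submodule.mul_induction_on hf ?_ ?_
    · intro a ha b hb
      refine le_trans ?_ le_order_mul
      rw [mem_max, ← one_le_order_iff_constCoeff_eq_zero] at ha
      push_cast
      rw [add_comm (n : ℕ∞) 1]
      exact add_le_add ha (ih b hb)
    · intro a b ha hb
      exact le_trans (le_min ha hb) min_order_le_add

theorem psg : Pool.Agent.H867.FT.S_PSG := by
  intro k _ d
  refine ⟨?_, ?_⟩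
  · apply le_antisymm
    · intro f hf
      rw [mem_max] at hf
      rw [sum_part f hf]
      refine Ideal.sum_mem _ fun i _ => Ideal.mul_mem_right _ _ (Ideal.subset_span ⟨i, rfl⟩)
    · rw [Ideal.span_le]
      rintro _ ⟨i, rfl⟩
      exact X_mem i
  · intro a b m l ha hb hab
    have h1 : a.order < ((m + 1 : ℕ) : ℕ∞) := by
      by_contra h
      exact ha (mem_pow _ a (not_lt.1 h))
    have h2 : b.order < ((l + 1 : ℕ) : ℕ∞) := by
      by_contra h
      exact hb (mem_pow _ b (not_lt.1 h))
    have h3 := order_of_mem _ _ hab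
    rw [order_mul] at h3
    obtain ⟨x, hx⟩ := ENat.ne_top_iff_exists.1 (ne_top_of_lt h1)
    obtain ⟨y, hy⟩ := ENat.ne_top_iff_exists.1 (ne_top_of_lt h2)
    rw [← hx] at h1 h3
    rw [← hy] at h2 h3
    have h1' : x < m + 1 := by exact_mod_cast h1
    have h2' : y < l + 1 := by exact_mod_cast h2
    have h3' : m + l + 1 ≤ x + y := by exact_mod_cast h3
    omega

end Pool.Agent.H707.FT867
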