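import Pool.Agent.H252.UQ.Iface

/-!
# Uniform continuity of the continuous functional calculus
-/

set_option autoImplicit false

noncomputable section

namespace Pool.Agent.H707.UQUCFC

open Pool.Agent.H252.UQ Polynomial

/-- powers are Lipschitz on balls -/
theorem pow_lip (K : ℝ) (hK : 1 ≤ K) (n : ℕ) : ∃ C : ℝ, 0 ≤ C ∧
    ∀ (A : Type) [CStarAlgebra A] [Nontrivial A] (a b : A), ‖a‖ ≤ K → ‖b‖ ≤ K →
      ‖a ^ n - b ^ n‖ ≤ C * ‖a - b‖ := by
  induction n with
  | zero =>
    refine ⟨0, le_rfl, fun A _ _ a b _ _ => ?_⟩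
    simp
  | succ n ih =>
    obtain ⟨C, hC, h⟩ := ih
    refine ⟨K ^ n + C * K, by positivity, fun A _ _ a b ha hb => ?_⟩
    have e1 : a ^ (n + 1) - b ^ (n + 1) = a ^ n * (a - b) + (a ^ n - b ^ n) * b := by
      rw [pow_succ, pow_succ]
      noncomm_ring
    have h1 : ‖a ^ n‖ ≤ K ^ n :=
      (norm_pow_le a n).trans (pow_le_pow_left₀ (norm_nonneg _) ha n)
    have h2 := h A a b ha hb
    calc ‖a ^ (n + 1) - b ^ (n + 1)‖ ≤ ‖a ^ n * (a - b)‖ + ‖(a ^ n - b ^ n) * b‖ := by
          rw [e1]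
          exact norm_add_le _ _
      _ ≤ K ^ n * ‖a - b‖ + C * ‖a - b‖ * K := by
          refine add_le_add ?_ ?_
          · exact (norm_mul_le _ _).trans (mul_le_mul_of_nonneg_right h1 (norm_nonneg _))
          · exact (norm_mul_le _ _).trans (mul_le_mul h2 hb (norm_nonneg _) (by positivity))
      _ = (K ^ n + C * K) * ‖a - b‖ := by ring

/-- polynomials are Lipschitz on balls -/
theorem poly_lip (K : ℝ) (hK : 1 ≤ K) (p : ℝ[X]) : ∃ C : ℝ, 0 ≤ C ∧
    ∀ (A : Type) [CStarAlgebra A] [Nontrivial A] (a b : A), ‖a‖ ≤ K → ‖b‖ ≤ K →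
      ‖aeval a p - aeval b p‖ ≤ C * ‖a - b‖ := by
  induction p using Polynomial.induction_on' with
  | add p q hp hq =>
    obtain ⟨C, hC, h⟩ := hp
    obtain ⟨C', hC', h'⟩ := hq
    refine ⟨C + C', by positivity, fun A _ _ a b ha hb => ?_⟩
    have e1 : aeval a (p + q) - aeval b (p + q) =
        (aeval a p - aeval b p) + (aeval a q - aeval b q) := by
      rw [map_add, map_add]
      abel
    rw [e1, add_mul]
    exact (norm_add_le _ _).trans (add_le_add (h A a b ha hb) (h' A a b ha hb))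
  | monomial n c =>
    obtain ⟨C, hC, h⟩ := pow_lip K hK n
    refine ⟨|c| * C, by positivity, fun A _ _ a b ha hb => ?_⟩
    have e1 : aeval a (monomial n c) - aeval b (monomial n c) = c • (a ^ n - b ^ n) := by
      rw [aeval_monomial, aeval_monomial, smul_sub, Algebra.smul_def, Algebra.smul_def]
    rw [e1, norm_smul, Real.norm_eq_abs, mul_assoc]
    exact mul_le_mul_of_nonneg_left (h A a b ha hb) (abs_nonneg c)

/-- approximation of the functional calculus by a polynomial -/
theorem cfc_near {G : ℝ → ℝ} (hG : Continuous G) {M ε : ℝ} {p : ℝ[X]} (hε : 0 ≤ ε)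
    (hp : ∀ x ∈ Set.Icc (-M) M, |p.eval x - G x| < ε) {A : Type} [CStarAlgebra A] [Nontrivial A]
    {a : A} (ha : IsSelfAdjoint a) (haM : ‖a‖ ≤ M) : ‖cfc G a - aeval a p‖ ≤ ε := by
  rw [← cfc_polynomial p a ha, ← cfc_sub (a := a) G p.eval hG.continuousOn p.continuous.continuousOn]
  refine norm_cfc_le hε fun x hx => ?_
  have h1 : ‖x‖ ≤ ‖a‖ := spectrum.norm_le_norm_of_mem hx
  rw [Real.norm_eq_abs] at h1
  have h2 := hp x (abs_le.1 (h1.trans haM))
  rw [Real.norm_eq_abs, abs_sub_comm]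
  exact h2.le

theorem s_UCFC : S_UCFC := by
  intro G hG M ε hε
  obtain ⟨p, hp⟩ := exists_polynomial_near_of_continuousOn (-M) M G hG.continuousOn (ε / 3)
    (by positivity)
  obtain ⟨C, hC, hlip⟩ := poly_lip (max M 1) (le_max_right _ _) p
  refine ⟨ε / (3 * (C + 1)), by positivity, fun A _ a b ha hb haM hbM hab => ?_⟩
  rcases subsingleton_or_nontrivial A with hA | hA
  · rw [Subsingleton.elim (cfc G a - cfc G b) 0, norm_zero]
    exact hε.le
  · have h1 := cfc_near hG (by positivity) hp ha haM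
    have h2 := cfc_near hG (by positivity) hp hb hbM
    have h3 := hlip A a b (haM.trans (le_max_left _ _)) (hbM.trans (le_max_left _ _))
    have h4 : C * ‖a - b‖ ≤ ε / 3 := by
      have h5 : C * ‖a - b‖ ≤ C * (ε / (3 * (C + 1))) := mul_le_mul_of_nonneg_left hab hC
      have h6 : C * (ε / (3 * (C + 1))) ≤ ε / 3 := by
        rw [← mul_div_assoc, div_le_div_iff₀ (by positivity) (by positivity)]
        nlinarith
      exact h5.trans h6
    have e1 : cfc G a - cfc G b = (cfc G a - aeval a p) + (aeval a p - aeval b p) -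
        (cfc G b - aeval b p) := by abel
    rw [e1]
    have h7 := norm_sub_le ((cfc G a - aeval a p) + (aeval a p - aeval b p)) (cfc G b - aeval b p)
    have h8 := norm_add_le (cfc G a - aeval a p) (aeval a p - aeval b p)
    linarith

end Pool.Agent.H707.UQUCFC
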