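import Mathlib
import Pool.Agent.H394.LiePerms
import Pool.Agent.H394.LieStm

set_option autoImplicit false

/-!
Contraction of associative matrix identities and its two consequences (`S_CON`, `S_BF1`, `S_BF2`).
-/

namespace Pool.Agent.H707.LieB

open Finset Pool.Agent.H394.LieB

variable {K : Type} [Field K]

/-- An identity of the `k × k` matrices holds for matrices over any index type of size `k`. -/
theorem isId_equiv {k : ℕ} {ι : Type} [Fintype ι] [DecidableEq ι] (e : Fin k ≃ ι)
    {S : Finset ℕ} {p : List ℕ → K} (h : IsId K k S p) (X : ℕ → Matrix ι ι K) :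
    ∑ w ∈ permsOf S, p w • (w.map X).prod = 0 := by
  have h1 := h (fun l => Matrix.reindexAlgEquiv K K e.symm (X l))
  have h2 : ∀ w : List ℕ, (w.map (fun l => Matrix.reindexAlgEquiv K K e.symm (X l))).prod =
      Matrix.reindexAlgEquiv K K e.symm ((w.map X).prod) := by
    intro w
    rw [map_list_prod, List.map_map]
    rfl
  simp only [h2, ← map_smul, ← map_sum] at h1
  exact (map_eq_zero_iff _ (Matrix.reindexAlgEquiv K K e.symm).injective).mp h1

/-- Sums over the orderings of `S` of a matrix entry. -/
noncomputable def FF {ι : Type} [Fintype ι] [DecidableEq ι] (X : ℕ → Matrix ι ι K) (S : Finset ℕ)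
    (p : List ℕ → K) (i j : ι) : K := ∑ w ∈ permsOf S, p w * (w.map X).prod i j

theorem FF_empty {ι : Type} [Fintype ι] [DecidableEq ι] (X : ℕ → Matrix ι ι K)
    (p : List ℕ → K) (i j : ι) : FF X ∅ p i j = p [] * (if i = j then 1 else 0) := by
  unfold FF
  rw [permsOf_empty, Finset.sum_singleton, List.map_nil, List.prod_nil, Matrix.one_apply]

theorem FF_rec {ι : Type} [Fintype ι] [DecidableEq ι] (X : ℕ → Matrix ι ι K) (S : Finset ℕ)
    (hS : S.Nonempty) (p : List ℕ → K) (i j : ι) :
    FF X S p i j = ∑ a ∈ S, ∑ m, X a i m * FF X (S.erase a) (fun w => p (a :: w)) m j := by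
  unfold FF
  rw [sum_permsOf S hS]
  apply Finset.sum_congr rfl
  intro a _
  simp only [List.map_cons, List.prod_cons, Matrix.mul_apply, Finset.mul_sum]
  rw [Finset.sum_comm]
  apply Finset.sum_congr rfl
  intro m _
  apply Finset.sum_congr rfl
  intro w _
  ring

theorem FF_zero {k : ℕ} {ι : Type} [Fintype ι] [DecidableEq ι] (e : Fin k ≃ ι)
    {S : Finset ℕ} {p : List ℕ → K} (h : IsId K k S p) (X : ℕ → Matrix ι ι K) (i j : ι) :
    FF X S p i j = 0 := by
  have h1 := congrFun (congrFun (isId_equiv e h X) i) j
  rw [Matrix.sum_apply] at h1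
  simpa [FF] using h1

/-- The test matrices. -/
def XX (k : ℕ) (T : Finset ℕ) (z : ℕ) (q : Fin k) (x : ℕ → Matrix (Fin k) (Fin k) K) (l : ℕ) :
    Matrix (Option (Fin k)) (Option (Fin k)) K := fun a b =>
  match a, b with
  | some a, some b => if l = z ∨ l ∈ T then 0 else x l a b
  | some a, none => if l = z ∧ a = q then 1 else 0
  | none, some _ => 0
  | none, none => if l = z then 0 else if l ∈ T then 1 else 0

theorem XX_ss {k : ℕ} (T : Finset ℕ) (z : ℕ) (q : Fin k) (x : ℕ → Matrix (Fin k) (Fin k) K)
    (l : ℕ) (a b : Fin k) :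
    XX k T z q x l (some a) (some b) = if l = z ∨ l ∈ T then 0 else x l a b := rfl

theorem XX_sn {k : ℕ} (T : Finset ℕ) (z : ℕ) (q : Fin k) (x : ℕ → Matrix (Fin k) (Fin k) K)
    (l : ℕ) (a : Fin k) :
    XX k T z q x l (some a) none = if l = z ∧ a = q then 1 else 0 := rfl

theorem XX_ns {k : ℕ} (T : Finset ℕ) (z : ℕ) (q : Fin k) (x : ℕ → Matrix (Fin k) (Fin k) K)
    (l : ℕ) (b : Fin k) : XX k T z q x l none (some b) = 0 := rfl

theorem XX_nn {k : ℕ} (T : Finset ℕ) (z : ℕ) (q : Fin k) (x : ℕ → Matrix (Fin k) (Fin k) K)
    (l : ℕ) : XX k T z q x l none none = if l = z then 0 else if l ∈ T then 1 else 0 := rfl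

/-- The entry at `(none, none)` tests whether all letters are in `T`. -/
theorem XX_word {k : ℕ} (T : Finset ℕ) (z : ℕ) (hz : z ∉ T) (q : Fin k)
    (x : ℕ → Matrix (Fin k) (Fin k) K) (w : List ℕ) :
    (w.map (XX k T z q x)).prod none none = if (∀ l ∈ w, l ∈ T) then 1 else 0 := by
  induction w with
  | nil => simp
  | cons l w ih =>
    rw [List.map_cons, List.prod_cons, Matrix.mul_apply, Fintype.sum_option, ih, XX_nn]
    simp only [XX_ns, zero_mul, Finset.sum_const_zero, add_zero]
    by_cases hlz : l = z
    · subst hlz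
      simp [hz]
    · by_cases hlT : l ∈ T
      · simp [hlz, hlT]
      · simp [hlz, hlT]

theorem FF_none {k : ℕ} (S T : Finset ℕ) (z : ℕ) (hz : z ∉ T) (hT : T ⊆ S) (q : Fin k)
    (x : ℕ → Matrix (Fin k) (Fin k) K) (p : List ℕ → K) :
    FF (XX k T z q x) S p none none = if S \ T = ∅ then ∑ t ∈ permsOf T, p t else 0 := by
  unfold FF
  by_cases h : S \ T = ∅
  · have hST : S = T := Finset.Subset.antisymm (Finset.sdiff_eq_empty_iff_subset.mp h) hT
    rw [if_pos h, hST]
    apply Finset.sum_congr rfl
    intro w hw
    rw [XX_word T z hz, if_pos, mul_one]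
    intro l hl
    rw [mem_permsOf] at hw
    rw [← hw.2, List.mem_toFinset]
    exact hl
  · rw [if_neg h]
    apply Finset.sum_eq_zero
    intro w hw
    rw [XX_word T z hz, if_neg, mul_zero]
    intro hall
    apply h
    rw [Finset.sdiff_eq_empty_iff_subset]
    intro l hl
    apply hall
    rw [mem_permsOf] at hw
    rw [← List.mem_toFinset, hw.2]
    exact hl

theorem con_aux {k : ℕ} (T : Finset ℕ) (z : ℕ) (hz : z ∉ T) (q : Fin k)
    (x : ℕ → Matrix (Fin k) (Fin k) K) (n : ℕ) :
    ∀ (S : Finset ℕ), S.card = n → z ∈ S → T ⊆ S → ∀ (p : List ℕ → K) (i : Fin k),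
      FF (XX k T z q x) S p (some i) none =
        FF x ((S.erase z) \ T) (fun w => ∑ t ∈ permsOf T, p (w ++ z :: t)) i q := by
  induction n with
  | zero =>
    intro S hS hzS
    rw [Finset.card_eq_zero] at hS
    rw [hS] at hzS
    simp at hzS
  | succ n ih =>
    intro S hS hzS hTS p i
    have hne : S.Nonempty := ⟨z, hzS⟩
    rw [FF_rec _ S hne]
    -- split the sum over the first letter
    have hsplit : S = insert z (T ∪ ((S.erase z) \ T)) := by
      rw [Finset.union_sdiff_of_subset, Finset.insert_erase hzS]
      intro t ht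
      rw [Finset.mem_erase]
      exact ⟨fun h => hz (h ▸ ht), hTS ht⟩
    have hTS' : T ⊆ S.erase z := by
      intro t ht
      rw [Finset.mem_erase]
      exact ⟨fun h => hz (h ▸ ht), hTS ht⟩
    have hz' : z ∉ T ∪ ((S.erase z) \ T) := by
      rw [Finset.mem_union, Finset.mem_sdiff, Finset.mem_erase]
      rintro (h | ⟨⟨h, _⟩, _⟩)
      · exact hz h
      · exact h rfl
    have hterm : ∀ a ∈ S, ∑ m, XX k T z q x a (some i) m *
          FF (XX k T z q x) (S.erase a) (fun w => p (a :: w)) m none =
        (if a = z ∧ i = q then FF (XX k T z q x) (S.erase a) (fun w => p (a :: w)) none none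
          else 0) +
        (if a = z ∨ a ∈ T then 0 else
          ∑ m, x a i m * FF (XX k T z q x) (S.erase a) (fun w => p (a :: w)) (some m) none) := by
      intro a _
      rw [Fintype.sum_option, XX_sn]
      congr 1
      · split_ifs <;> simp
      · by_cases h : a = z ∨ a ∈ T
        · simp [XX_ss, h]
        · simp [XX_ss, h]
    rw [Finset.sum_congr rfl hterm, Finset.sum_add_distrib]
    have h1 : ∑ a ∈ S, (if a = z ∧ i = q then
          FF (XX k T z q x) (S.erase a) (fun w => p (a :: w)) none none else 0) =
        if i = q then (if (S.erase z) \ T = ∅ then ∑ t ∈ permsOf T, p (z :: t) else 0) else 0 := by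
      rw [Finset.sum_eq_single z]
      · rw [FF_none _ T z hz hTS']
        simp
      · intro a _ haz
        simp [haz]
      · intro h
        exact absurd hzS h
    have h2 : ∑ a ∈ S, (if a = z ∨ a ∈ T then 0 else
          ∑ m, x a i m * FF (XX k T z q x) (S.erase a) (fun w => p (a :: w)) (some m) none) =
        ∑ a ∈ (S.erase z) \ T,
          ∑ m, x a i m * FF x (((S.erase z) \ T).erase a)
            (fun w => ∑ t ∈ permsOf T, p (a :: w ++ z :: t)) m q := by
      rw [← Finset.sum_subset (s₁ := (S.erase z) \ T) (s₂ := S)]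
      · apply Finset.sum_congr rfl
        intro a ha
        rw [Finset.mem_sdiff, Finset.mem_erase] at ha
        obtain ⟨⟨haz, haS⟩, haT⟩ := ha
        rw [if_neg (by tauto)]
        apply Finset.sum_congr rfl
        intro m _
        rw [ih (S.erase a) (by rw [Finset.card_erase_of_mem haS, hS]; rfl)
          (Finset.mem_erase.mpr ⟨fun h => haz h.symm, hzS⟩)
          (fun t ht => Finset.mem_erase.mpr ⟨fun h => haT (h ▸ ht), hTS ht⟩)]
        have he : ((S.erase a).erase z) \ T = ((S.erase z) \ T).erase a := by
          ext b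
          simp only [Finset.mem_sdiff, Finset.mem_erase]
          tauto
        rw [he]
        rfl
      · intro a ha
        rw [Finset.mem_sdiff, Finset.mem_erase] at ha
        exact ha.1.2
      · intro a haS ha
        rw [if_pos]
        rw [Finset.mem_sdiff, Finset.mem_erase] at ha
        by_contra hc
        apply ha
        tauto
    rw [h1, h2]
    by_cases hemp : (S.erase z) \ T = ∅
    · rw [if_pos hemp, hemp, Finset.sum_empty, add_zero, FF_empty]
      split_ifs <;> simp
    · rw [if_neg hemp]
      rw [FF_rec _ _ (Finset.nonempty_iff_ne_empty.mpr hemp)]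
      simp

theorem t_CON : S_CON := by
  intro K _ k S T z p hzS hTS hzT h x
  ext i q
  rw [Matrix.sum_apply]
  have h1 := FF_zero (finSuccEquivLast (n := k)) h (XX k T z q x) (some i) none
  rw [con_aux T z hzT q x _ S rfl hzS hTS p i] at h1
  simpa [FF] using h1

theorem exists_snoc2 (w : List ℕ) (h : 2 ≤ w.length) : ∃ (w' : List ℕ) (z t : ℕ),
    w = w' ++ [z, t] := by
  obtain ⟨w1, t, rfl⟩ : ∃ w1 t, w = w1 ++ [t] := by
    rcases List.eq_nil_or_concat w with h1 | ⟨w1, t, h1⟩
    · rw [h1] at h
      simp at h
    · exact ⟨w1, t, by simpa using h1⟩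
  obtain ⟨w2, z, rfl⟩ : ∃ w2 z, w1 = w2 ++ [z] := by
    rcases List.eq_nil_or_concat w1 with h1 | ⟨w2, z, h1⟩
    · rw [h1] at h
      simp at h
    · exact ⟨w2, z, by simpa using h1⟩
  exact ⟨w2, z, t, by simp⟩

/-- Contraction with one letter after `z`. -/
theorem con1 {k : ℕ} {S : Finset ℕ} {z t : ℕ} {p : List ℕ → K} (hz : z ∈ S) (ht : t ∈ S)
    (hzt : z ≠ t) (h : IsId K (k + 1) S p) :
    IsId K k ((S.erase z).erase t) (fun w => p (w ++ [z, t])) := by
  have h1 := t_CON K k S {t} z p hz (Finset.singleton_subset_iff.mpr ht)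
    (by rwa [Finset.mem_singleton]) h
  have h2 : permsOf ({t} : Finset ℕ) = {[t]} := by
    ext w
    rw [mem_permsOf, Finset.mem_singleton]
    constructor
    · rintro ⟨hn, hw⟩
      have hl : w.length = 1 := by
        rw [← List.toFinset_card_of_nodup hn, hw]
        rfl
      obtain ⟨a, rfl⟩ := List.length_eq_one_iff.mp hl
      simpa using hw
    · rintro rfl
      simp
  simp only [h2, Finset.sum_singleton] at h1
  rwa [Finset.sdiff_singleton_eq_erase] at h1

theorem mem_snoc2 {S : Finset ℕ} {w : List ℕ} {z t : ℕ} (h : w ++ [z, t] ∈ permsOf S) :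
    z ∈ S ∧ t ∈ S ∧ z ≠ t ∧ w ∈ permsOf ((S.erase z).erase t) := by
  have h1 : (z :: t :: w) ∈ permsOf S := by
    rw [perm_mem_permsOf (w' := w ++ [z, t])]
    · exact h
    · exact (List.perm_append_comm (l₁ := [z, t]) (l₂ := w))
  rw [cons_mem_permsOf, cons_mem_permsOf, Finset.mem_erase] at h1
  exact ⟨h1.1, h1.2.1.2, fun e => h1.2.1.1 e.symm, h1.2.2⟩

theorem card_erase2 {S : Finset ℕ} {z t : ℕ} (hz : z ∈ S) (ht : t ∈ S) (hzt : z ≠ t) :
    ((S.erase z).erase t).card + 2 = S.card := by
  have h1 : t ∈ S.erase z := Finset.mem_erase.mpr ⟨fun e => hzt e.symm, ht⟩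
  have h2 := Finset.card_erase_add_one h1
  have h3 := Finset.card_erase_add_one hz
  omega

theorem t_BF1 : S_BF1 := by
  intro K _ k
  induction k with
  | zero =>
    intro S p h
    omega
  | succ k ih =>
    intro S p hS h w hw
    by_cases hlen : 2 ≤ w.length
    · obtain ⟨w', z, t, rfl⟩ := exists_snoc2 w hlen
      obtain ⟨hz, ht, hzt, hw'⟩ := mem_snoc2 hw
      have hc := card_erase2 hz ht hzt
      exact ih _ _ (by omega) (con1 hz ht hzt h) w' hw'
    · have hF := FF_zero (Equiv.refl (Fin (k + 1))) h (fun _ => 1) 0 0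
      match w, hw, hlen with
      | [], hw, _ =>
        have hS0 : S = ∅ := by
          rw [mem_permsOf] at hw
          exact hw.2.symm
        rw [hS0, FF_empty] at hF
        simpa using hF
      | [a], hw, _ =>
        have hS0 : S = {a} := by
          rw [mem_permsOf] at hw
          simpa using hw.2.symm
        rw [hS0, FF_rec _ _ (Finset.singleton_nonempty a), Finset.sum_singleton,
          Finset.erase_singleton] at hF
        simp only [FF_empty] at hF
        simpa [Matrix.one_apply] using hF
      | a :: b :: w, hw, hlen => simp at hlen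

theorem isId_reverse {k : ℕ} {S : Finset ℕ} {p : List ℕ → K} (h : IsId K k S p) :
    IsId K k S (fun w => p w.reverse) := by
  intro x
  have h1 := h (fun l => (x l).transpose)
  have h2 : ∀ w : List ℕ, (w.map (fun l => (x l).transpose)).prod =
      ((w.reverse.map x).prod).transpose := by
    intro w
    rw [Matrix.transpose_list_prod, List.map_map, List.map_reverse, List.reverse_reverse]
    rfl
  simp only [h2] at h1
  have h3 : (∑ w ∈ permsOf S, p w • (w.reverse.map x).prod).transpose = 0 := by
    rw [Matrix.transpose_sum]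
    simpa only [Matrix.transpose_smul] using h1
  have h4 : ∑ w ∈ permsOf S, p w • (w.reverse.map x).prod = 0 := by
    rw [← Matrix.transpose_transpose (∑ w ∈ permsOf S, p w • (w.reverse.map x).prod), h3,
      Matrix.transpose_zero]
  rw [← sum_permsOf_reverse] at h4
  simpa only [List.reverse_reverse] using h4

theorem t_BF2 : S_BF2 := by
  intro K _ k
  induction k with
  | zero =>
    intro S p hS _ l₁ l₂ x y hw
    have := length_of_mem_permsOf hw
    rw [hS] at this
    simp at this
  | succ k ih =>
    have key : ∀ (S : Finset ℕ) (p : List ℕ → K), S.card = 2 * (k + 1) → IsId K (k + 1) S p →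
        ∀ (l₁ l₂ : List ℕ) (x y : ℕ), 2 ≤ l₂.length → l₁ ++ x :: y :: l₂ ∈ permsOf S →
          p (l₁ ++ x :: y :: l₂) + p (l₁ ++ y :: x :: l₂) = 0 := by
      intro S p hS h l₁ l₂ x y hl hw
      obtain ⟨w', z, t, rfl⟩ := exists_snoc2 l₂ hl
      have e1 : l₁ ++ x :: y :: (w' ++ [z, t]) = (l₁ ++ x :: y :: w') ++ [z, t] := by simp
      have e2 : l₁ ++ y :: x :: (w' ++ [z, t]) = (l₁ ++ y :: x :: w') ++ [z, t] := by simp
      rw [e1] at hw ⊢
      rw [e2]
      obtain ⟨hz, ht, hzt, hw'⟩ := mem_snoc2 hw
      have hc := card_erase2 hz ht hzt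
      exact ih _ _ (by omega) (con1 hz ht hzt h) l₁ w' x y hw'
    intro S p hS h l₁ l₂ x y hw
    by_cases hl2 : 2 ≤ l₂.length
    · exact key S p hS h l₁ l₂ x y hl2 hw
    by_cases hl1 : 2 ≤ l₁.length
    · have h3 := key S _ hS (isId_reverse h) l₂.reverse l₁.reverse y x (by simpa using hl1)
        (by
          rw [← reverse_mem_permsOf]
          simpa using hw)
      simpa using h3
    have hlen := length_of_mem_permsOf hw
    rw [hS, List.length_append, List.length_cons, List.length_cons] at hlen
    match l₁, l₂, hl1, hl2, hlen, hw with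
    | [], [], _, _, hlen, hw =>
      have hk : k = 0 := by
        simp at hlen
        omega
      subst hk
      rw [mem_permsOf] at hw
      obtain ⟨hn, hw⟩ := hw
      have hxy : x ≠ y := by
        simpa using hn
      have hS' : S = {x, y} := by
        rw [← hw]
        ext b
        simp
      have hF := FF_zero (Equiv.refl (Fin 1)) h (fun _ => 1) 0 0
      rw [hS', FF_rec _ _ ⟨x, by simp⟩, Finset.sum_pair hxy] at hF
      have e1 : ({x, y} : Finset ℕ).erase x = {y} := by
        ext b
        simp only [Finset.mem_erase, Finset.mem_insert, Finset.mem_singleton]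
        constructor
        · tauto
        · rintro rfl
          exact ⟨fun e => hxy e.symm, Or.inr rfl⟩
      have e2 : ({x, y} : Finset ℕ).erase y = {x} := by
        ext b
        simp only [Finset.mem_erase, Finset.mem_insert, Finset.mem_singleton]
        constructor
        · tauto
        · rintro rfl
          exact ⟨hxy, Or.inl rfl⟩
      rw [e1, e2] at hF
      simp only [FF_rec _ _ (Finset.singleton_nonempty _), Finset.sum_singleton,
        Finset.erase_singleton, FF_empty] at hF
      simpa [Matrix.one_apply] using hF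
    | [l], [r], _, _, hlen, hw =>
      have hk : k = 1 := by
        simp at hlen
        omega
      subst hk
      rw [mem_permsOf] at hw
      obtain ⟨hn, hw⟩ := hw
      simp only [List.singleton_append, List.nodup_cons, List.mem_cons, List.not_mem_nil,
        or_false, not_or, List.nodup_nil, and_true, not_false_eq_true] at hn
      obtain ⟨⟨hlx, hly, hlr⟩, ⟨hxy, hxr⟩, hyr⟩ := hn
      have hS' : S = {l, x, y, r} := by
        rw [← hw]
        ext b
        simp
      let X : ℕ → Matrix (Fin 2) (Fin 2) K := fun n =>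
        if n = l then !![0, 1; 0, 0] else if n = r then !![0, 0; 1, 0] else !![0, 0; 0, 1]
      have hXl : X l = !![0, 1; 0, 0] := by simp [X]
      have hXr : X r = !![0, 0; 1, 0] := by
        simp only [X]
        rw [if_neg (fun e => hlr e.symm)]
        simp
      have hXx : X x = !![0, 0; 0, 1] := by
        simp only [X]
        rw [if_neg (fun e => hlx e.symm), if_neg hxr]
      have hXy : X y = !![0, 0; 0, 1] := by
        simp only [X]
        rw [if_neg (fun e => hly e.symm), if_neg hyr]
      have hF := FF_zero (Equiv.refl (Fin 2)) h X 0 0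
      have c1 : ({l, x, y, r} : Finset ℕ).erase l = {x, y, r} := by
        ext b
        simp only [Finset.mem_erase, Finset.mem_insert, Finset.mem_singleton]
        constructor
        · tauto
        · intro hb
          refine ⟨?_, Or.inr hb⟩
          rintro rfl
          tauto
      have c2 : ({x, y, r} : Finset ℕ).erase x = {y, r} := by
        ext b
        simp only [Finset.mem_erase, Finset.mem_insert, Finset.mem_singleton]
        constructor
        · tauto
        · intro hb
          refine ⟨?_, Or.inr hb⟩
          rintro rfl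
          tauto
      have c3 : ({x, y, r} : Finset ℕ).erase y = {x, r} := by
        ext b
        simp only [Finset.mem_erase, Finset.mem_insert, Finset.mem_singleton]
        constructor
        · tauto
        · intro hb
          refine ⟨?_, by tauto⟩
          rintro rfl
          tauto
      have c4 : ({x, y, r} : Finset ℕ).erase r = {x, y} := by
        ext b
        simp only [Finset.mem_erase, Finset.mem_insert, Finset.mem_singleton]
        constructor
        · tauto
        · intro hb
          refine ⟨?_, by tauto⟩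
          rintro rfl
          tauto
      have c5 : ∀ a b : ℕ, a ≠ b → ({a, b} : Finset ℕ).erase a = {b} := by
        intro a b hab
        ext c
        simp only [Finset.mem_erase, Finset.mem_insert, Finset.mem_singleton]
        constructor
        · tauto
        · rintro rfl
          exact ⟨fun e => hab e.symm, Or.inr rfl⟩
      have c6 : ∀ a b : ℕ, a ≠ b → ({a, b} : Finset ℕ).erase b = {a} := by
        intro a b hab
        ext c
        simp only [Finset.mem_erase, Finset.mem_insert, Finset.mem_singleton]
        constructor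
        · tauto
        · rintro rfl
          exact ⟨hab, Or.inl rfl⟩
      have d1 : ∀ (a : ℕ) (p' : List ℕ → K) (i j : Fin 2), FF X {a} p' i j = p' [a] * X a i j := by
        intro a p' i j
        unfold FF
        rw [sum_permsOf _ (Finset.singleton_nonempty a), Finset.sum_singleton,
          Finset.erase_singleton, permsOf_empty, Finset.sum_singleton]
        simp
      have d2 : ∀ (a b : ℕ), a ≠ b → ∀ (p' : List ℕ → K) (i j : Fin 2),
          FF X {a, b} p' i j = (X a i 0 * (p' [a, b] * X b 0 j) + X a i 1 * (p' [a, b] * X b 1 j))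
            + (X b i 0 * (p' [b, a] * X a 0 j) + X b i 1 * (p' [b, a] * X a 1 j)) := by
        intro a b hab p' i j
        rw [FF_rec _ _ ⟨a, by simp⟩, Finset.sum_pair hab, c5 a b hab, c6 a b hab]
        simp only [d1, Fin.sum_univ_two]
      rw [hS', FF_rec _ _ ⟨l, by simp⟩] at hF
      have hnl : ∀ a ∈ ({x, y, r} : Finset ℕ), ∑ m, X a 0 m *
          FF X (({l, x, y, r} : Finset ℕ).erase a) (fun w => p (a :: w)) m 0 = 0 := by
        intro a ha
        simp only [Finset.mem_insert, Finset.mem_singleton] at ha
        rcases ha with rfl | rfl | rfl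
        · simp [hXx, Fin.sum_univ_two]
        · simp [hXy, Fin.sum_univ_two]
        · simp [hXr, Fin.sum_univ_two]
      rw [Finset.sum_insert (by
        simp only [Finset.mem_insert, Finset.mem_singleton]
        tauto), Finset.sum_eq_zero hnl, add_zero, c1] at hF
      rw [Fin.sum_univ_two, hXl] at hF
      simp only [Matrix.of_apply, Matrix.cons_val', Matrix.cons_val_zero, Matrix.cons_val_one,
        Matrix.cons_val_fin_one, zero_mul, one_mul, zero_add] at hF
      rw [FF_rec _ _ ⟨x, by simp⟩, Finset.sum_insert (by
        simp only [Finset.mem_insert, Finset.mem_singleton]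
        tauto), Finset.sum_pair hyr, c2, c3, c4] at hF
      simp only [d2 y r hyr, d2 x r hxr, d2 x y hxy, Fin.sum_univ_two, hXx, hXy, hXr] at hF
      simpa using hF
    | [], [r], _, _, hlen, _ =>
      simp at hlen
      omega
    | [l], [], _, _, hlen, _ =>
      simp at hlen
      omega
    | _ :: _ :: _, _, hl1, _, _, _ => simp at hl1
    | _, _ :: _ :: _, _, hl2, _, _ => simp at hl2

end Pool.Agent.H707.LieB
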