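import Pool.Agent.H465.CG.Stm

/-!
# Finite products of L-function data
-/

set_option autoImplicit false

open NumberField Filter Topology
open scoped ComplexConjugate

namespace Pool.Agent.H707.CG

open Pool.Agent.H465.PT

theorem log_prod_le {ι : Type} [Fintype ι] (f : ι → ℂ) (n : ι → ℕ) (B : ℝ) (h0 : ∀ i, f i ≠ 0)
    (h : ∀ i, |Real.log ‖f i‖| ≤ n i * B) :
    |Real.log ‖∏ i, f i‖| ≤ ((∑ i, n i : ℕ) : ℝ) * B := by
  rw [norm_prod, Real.log_prod fun i _ => norm_ne_zero_iff.2 (h0 i)]
  refine (Finset.abs_sum_le_sum_abs _ _).trans ?_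
  push_cast
  rw [Finset.sum_mul]
  exact Finset.sum_le_sum fun i _ => h i

theorem sProd : Pool.Agent.H465.CG.SProd := by
  intro c b ι _ k n x Λ L h
  have hgrow := fun i => (h i).grow
  choose C m hCm using hgrow
  have hfac := fun i => (h i).fac
  choose γ hγ1 hγ2 hγ3 hγ4 using hfac
  refine ⟨Finset.sum_le_sum fun i _ => (h i).kn, ?_, ?_, ?_, ?_, ?_, ?_, ?_⟩
  · intro s
    exact DifferentiableAt.fun_finsetProd fun i _ => (h i).ent s
  · intro s hs hs1
    exact DifferentiableAt.fun_finsetProd fun i _ => (h i).dif s hs hs1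
  · intro s
    simp only [norm_prod]
    exact Finset.prod_congr rfl fun i _ => (h i).sym s
  · refine ⟨∏ i, |C i|, ∑ i, m i, fun s h1 h2 => ?_⟩
    rw [norm_prod, ← Finset.prod_pow_eq_pow_sum, ← Finset.prod_mul_distrib]
    refine Finset.prod_le_prod (fun i _ => norm_nonneg _) fun i _ => ?_
    refine (hCm i s h1 h2).trans (mul_le_mul_of_nonneg_right (le_abs_self _) ?_)
    positivity
  · refine ⟨fun s => ∏ i, γ i s, fun s hs => ⟨?_, ?_⟩, fun s hs hs1 => ?_, fun T s h1 h2 => ?_,
      fun s h1 h2 => ?_⟩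
    · exact DifferentiableAt.fun_finsetProd fun i _ => (hγ1 i s hs).1
    · exact Finset.prod_ne_zero_iff.2 fun i _ => (hγ1 i s hs).2
    · have e1 : Complex.exp ((((∑ i, x i) / 2 : ℝ) : ℂ) * s) =
          ∏ i, Complex.exp (((x i / 2 : ℝ) : ℂ) * s) := by
        rw [← Complex.exp_sum]
        congr 1
        push_cast
        rw [← Finset.sum_mul, Finset.sum_div]
      rw [e1, ← Finset.prod_pow_eq_pow_sum, ← Finset.prod_mul_distrib, ← Finset.prod_mul_distrib,
        ← Finset.prod_mul_distrib]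
      exact Finset.prod_congr rfl fun i _ => hγ2 i s hs hs1
    · exact log_prod_le (fun i => γ i s) n (c T) (fun i => (hγ1 i s (by linarith)).2)
        fun i => hγ3 i T s h1 h2
    · rw [norm_prod, ← Finset.prod_pow_eq_pow_sum, ← Finset.prod_mul_distrib]
      have e2 : Real.exp (((∑ i, n i : ℕ) : ℝ) * c 0) = ∏ i, Real.exp (n i * c 0) := by
        rw [← Real.exp_sum, ← Finset.sum_mul]
        push_cast
        rfl
      rw [e2]
      exact Finset.prod_le_prod (fun i _ => by positivity) fun i _ => hγ4 i s h1 h2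
  · intro ϑ s h1 h2
    exact ⟨Finset.prod_ne_zero_iff.2 fun i _ => ((h i).right ϑ s h1 h2).1,
      log_prod_le (fun i => L i s) n (b ϑ) (fun i => ((h i).right ϑ s h1 h2).1)
        fun i => ((h i).right ϑ s h1 h2).2⟩
  · intro s hs
    exact Finset.prod_ne_zero_iff.2 fun i _ => (h i).one s hs

end Pool.Agent.H707.CG
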