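import Pool.Agent.H683.CV.PLem

/-!
# `val` is computed in polynomial time
-/

set_option autoImplicit false

namespace Pool.Agent.NPC.H707CVPVAL

open Pool.Agent.NPC Pool.Agent.H633R2 Pool.Agent.H683.CV

variable {α : Type} [TEnc α]

theorem poly_entry {M : α → List (List Bool)} {i j : α → ℕ} (hM : Poly M)
    (hi : Poly i) (hj : Poly j) : Poly (fun a => entry (M a) (i a) (j a)) :=
  Poly.getD (Poly.getD hM hi (Poly.const [])) hj (Poly.const false)

theorem poly_adj {M : α → List (List Bool)} {u v : α → ℕ} (hM : Poly M) (hu : Poly u)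
    (hv : Poly v) : Poly (fun a => adj (M a) (u a) (v a)) := by
  unfold adj
  refine Poly.and ?_ (Poly.or (poly_entry hM hu hv) (poly_entry hM hv hu))
  exact (Poly.not (Poly.decide_eq hu hv)).congr fun a => (decide_not).symm

theorem poly_nin {S : α → List ℕ} {u : α → ℕ} (hS : Poly S) (hu : Poly u) :
    Poly (fun a => nin (S a) (u a)) := by
  unfold nin
  exact Poly.all (l := S) (p := fun a s => !decide (s = u a)) hS
    (Poly.not (Poly.decide_eq (Poly.snd Poly.id) (hu.comp (Poly.fst Poly.id))))

theorem poly_vs {M : α → List (List Bool)} {S : α → List ℕ} (hM : Poly M) (hS : Poly S) :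
    Poly (fun a => vs (M a) (S a)) := by
  unfold vs
  exact Poly.filter (l := fun a => List.range (M a).length) (p := fun a v => nin (S a) v)
    (UPoly.range (UPoly.length hM)) (poly_nin (hS.comp (Poly.fst Poly.id)) (Poly.snd Poly.id))

theorem poly_clq {M : α → List (List Bool)} {S : α → List ℕ} {r : α → ℕ} (hM : Poly M)
    (hS : Poly S) (hr : Poly r) : Poly (fun a => clq (M a) (S a) (r a)) := by
  unfold clq
  exact Poly.filter (l := fun a => vs (M a) (S a))
    (p := fun a v => decide (v = r a) || adj (M a) (r a) v) (poly_vs hM hS)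
    (Poly.or (Poly.decide_eq (Poly.snd Poly.id) (hr.comp (Poly.fst Poly.id)))
      (poly_adj (hM.comp (Poly.fst Poly.id)) (hr.comp (Poly.fst Poly.id)) (Poly.snd Poly.id)))

theorem poly_al {M : α → List (List Bool)} {Z : α → List (ℕ × ℕ)} {v j : α → ℕ} (hM : Poly M)
    (hZ : Poly Z) (hv : Poly v) (hj : Poly j) : Poly (fun a => al (M a) (Z a) (v a) (j a)) := by
  unfold al
  exact Poly.all (l := Z) (p := fun a z => !(decide (z.2 = j a) && adj (M a) z.1 (v a))) hZ
    (Poly.not (Poly.and
      (Poly.decide_eq (Poly.snd (Poly.snd Poly.id)) (hj.comp (Poly.fst Poly.id)))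
      (poly_adj (hM.comp (Poly.fst Poly.id)) (Poly.fst (Poly.snd Poly.id))
        (hv.comp (Poly.fst Poly.id)))))

theorem poly_bt {A j : α → ℕ} (hA : Poly A) (hj : Poly j) : Poly (fun a => bt (A a) (j a)) := by
  unfold bt
  exact Poly.getD (Poly.natBits hA) hj (Poly.const false)

theorem poly_two_pow {p : α → ℕ} (hp : UPoly p) : Poly (fun a => 2 ^ p a) := by
  have h1 : Poly (fun a => List.replicate (p a) false) :=
    (Poly.map (F := fun _ _ => false) hp (Poly.const false)).congr fun a => by
      rw [List.map_replicate]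
  have h2 : Poly (fun a => List.replicate (p a) false ++ [true]) :=
    Poly.append h1 (Poly.const [true])
  refine (Poly.valBits h2).congr fun a => ?_
  rw [valB_replicate_false]
  simp

theorem poly_subs {p : α → ℕ} {w : α → List Unit} (hp : UPoly p) (hw : Poly w) :
    Poly (fun a => subs (p a) (w a)) := by
  unfold subs
  exact UPoly.range (UPoly.of_le (n := fun a => (w a).length)
    (Poly.min (poly_two_pow hp) (Poly.length hw)) (UPoly.length hw) fun a => Nat.min_le_right _ _)

theorem poly_wv {M : α → List (List Bool)} {S : α → List ℕ} {Z : α → List (ℕ × ℕ)}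
    {p r J : α → ℕ} (hM : Poly M) (hS : Poly S) (hZ : Poly Z) (hp : UPoly p) (hr : Poly r)
    (hJ : Poly J) : Poly (fun a => wv (M a) (S a) (Z a) (p a) (r a) (J a)) := by
  unfold wv
  refine Poly.length (Poly.filter (l := fun a => clq (M a) (S a) (r a))
    (p := fun a v => (List.range (p a)).all fun j => !al (M a) (Z a) v j || bt (J a) j)
    (poly_clq hM hS hr) ?_)
  refine Poly.all (l := fun x : α × ℕ => List.range (p x.1))
    (p := fun x j => !al (M x.1) (Z x.1) x.2 j || bt (J x.1) j)
    (UPoly.range (hp.comp (Poly.fst Poly.id))) ?_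
  exact Poly.or (Poly.not (poly_al (hM.comp (Poly.fst (Poly.fst Poly.id)))
    (hZ.comp (Poly.fst (Poly.fst Poly.id))) (Poly.snd (Poly.fst Poly.id)) (Poly.snd Poly.id)))
    (poly_bt (hJ.comp (Poly.fst (Poly.fst Poly.id))) (Poly.snd Poly.id))

theorem poly_sub {p A J : α → ℕ} (hp : UPoly p) (hA : Poly A) (hJ : Poly J) :
    Poly (fun a => sub (p a) (A a) (J a)) := by
  unfold sub
  exact Poly.all (l := fun a => List.range (p a)) (p := fun a j => !bt (A a) j || bt (J a) j)
    (UPoly.range hp) (Poly.or
      (Poly.not (poly_bt (hA.comp (Poly.fst Poly.id)) (Poly.snd Poly.id)))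
      (poly_bt (hJ.comp (Poly.fst Poly.id)) (Poly.snd Poly.id)))

theorem poly_dif {p A J : α → ℕ} (hp : UPoly p) (hA : Poly A) (hJ : Poly J) :
    Poly (fun a => dif (p a) (A a) (J a)) := by
  unfold dif
  exact Poly.length (Poly.filter (l := fun a => List.range (p a))
    (p := fun a j => bt (J a) j && !bt (A a) j) (UPoly.range hp) (Poly.and
      (poly_bt (hJ.comp (Poly.fst Poly.id)) (Poly.snd Poly.id))
      (Poly.not (poly_bt (hA.comp (Poly.fst Poly.id)) (Poly.snd Poly.id)))))

theorem PVAL : S_PVAL := by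
  intro α _ M S Z p w r A hM hS hZ hp hw hr hA
  unfold val
  refine Poly.length (Poly.filter (l := fun a => List.range (M a).length)
    (p := fun a m => (subs (p a) (w a)).any fun J =>
      sub (p a) (A a) J && decide (m < wv (M a) (S a) (Z a) (p a) (r a) J - dif (p a) (A a) J))
    (UPoly.range (UPoly.length hM)) ?_)
  refine Poly.any (l := fun x : α × ℕ => subs (p x.1) (w x.1))
    (p := fun x J => sub (p x.1) (A x.1) J &&
      decide (x.2 < wv (M x.1) (S x.1) (Z x.1) (p x.1) (r x.1) J - dif (p x.1) (A x.1) J))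
    (poly_subs (hp.comp (Poly.fst Poly.id)) (hw.comp (Poly.fst Poly.id))) ?_
  have h1 : Poly (fun y : (α × ℕ) × ℕ => y.1.1) := Poly.fst (Poly.fst Poly.id)
  exact Poly.and (poly_sub (hp.comp h1) (hA.comp h1) (Poly.snd Poly.id))
    (Poly.decide_lt (Poly.snd (Poly.fst Poly.id)) (Poly.sub
      (poly_wv (hM.comp h1) (hS.comp h1) (hZ.comp h1) (hp.comp h1) (hr.comp h1)
        (Poly.snd Poly.id))
      (poly_dif (hp.comp h1) (hA.comp h1) (Poly.snd Poly.id))))

end Pool.Agent.NPC.H707CVPVAL
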