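import Pool.Agent.H979.DE.Stm

/-!
Directed edge reinforced random walk: conservation, next good step, outflow.
-/

set_option autoImplicit false

open Finset Pool.Agent.H41.Derrw Pool.Agent.H979.DE

namespace Pool.Agent.H707

namespace DECONS

variable {V : Type} [DecidableEq V]

theorem cross_succ (w : ℕ → V) (n : ℕ) (x y : V) :
    cross w (n + 1) x y = cross w n x y + ((if w n = x ∧ w (n + 1) = y then 1 else 0) -
      (if w n = y ∧ w (n + 1) = x then 1 else 0)) := by
  unfold cross
  rw [sum_range_succ]

theorem cross_symm (w : ℕ → V) (n : ℕ) (x y : V) : cross w n y x = - cross w n x y := by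
  unfold cross
  rw [← sum_neg_distrib]
  refine sum_congr rfl fun k _ => ?_
  ring

theorem sum_first (s : Finset V) (a b x : V) (h : a = x → b ∈ s) :
    ∑ y ∈ s, (if a = x ∧ b = y then (1 : ℤ) else 0) = if a = x then 1 else 0 := by
  by_cases hx : a = x
  · rw [if_pos hx, sum_eq_single b]
    · rw [if_pos ⟨hx, rfl⟩]
    · intro y _ hy
      rw [if_neg fun h => hy h.2.symm]
    · intro hb
      exact absurd (h hx) hb
  · rw [if_neg hx]
    refine sum_eq_zero fun y _ => ?_
    rw [if_neg fun h => hx h.1]

theorem val_succ {G : SimpleGraph V} {w : ℕ → V} {n : ℕ} (h : Val G w (n + 1)) :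
    Val G w n ∧ G.Adj (w n) (w (n + 1)) :=
  ⟨fun k hk => h k (by omega), h n (by omega)⟩

end DECONS

open DECONS

theorem de_cons : S_CONS := by
  intro V _ G _ w n
  induction n with
  | zero =>
    intro _ x
    rw [sub_self]
    refine sum_eq_zero fun y _ => ?_
    unfold cross
    rw [sum_range_zero]
  | succ n ih =>
    intro hval x
    obtain ⟨hv, hadj⟩ := val_succ hval
    have h1 := ih hv x
    have h2 : ∑ y ∈ G.neighborFinset x, (if w n = x ∧ w (n + 1) = y then (1 : ℤ) else 0) =
        if w n = x then 1 else 0 := by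
      refine sum_first _ _ _ _ fun h => ?_
      rw [SimpleGraph.mem_neighborFinset, ← h]
      exact hadj
    have h3 : ∑ y ∈ G.neighborFinset x, (if w n = y ∧ w (n + 1) = x then (1 : ℤ) else 0) =
        if w (n + 1) = x then 1 else 0 := by
      rw [← sum_first (G.neighborFinset x) (w (n + 1)) (w n) x (fun h => by
        rw [SimpleGraph.mem_neighborFinset, ← h]
        exact hadj.symm)]
      refine sum_congr rfl fun y _ => ?_
      by_cases h : w n = y ∧ w (n + 1) = x
      · rw [if_pos h, if_pos ⟨h.2, h.1⟩]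
      · rw [if_neg h, if_neg fun h' => h ⟨h'.2, h'.1⟩]
    rw [sum_congr rfl fun y _ => cross_succ w n x y, sum_add_distrib, sum_sub_distrib, h1, h2, h3]
    ring

theorem de_gnext (h1 : S_CONS) : S_GNEXT := by
  intro V _ G _ w n hval hreg
  obtain ⟨hv, hadj⟩ := val_succ hval
  have hcons := h1 V G w (n + 1) hval (w (n + 1))
  rw [if_pos (rfl : w (n + 1) = w (n + 1))] at hcons
  have hge : (-1 : ℤ) ≤ ∑ y ∈ G.neighborFinset (w (n + 1)), cross w (n + 1) (w (n + 1)) y := by
    rw [hcons]
    by_cases h : w 0 = w (n + 1)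
    · rw [if_pos h]; norm_num
    · rw [if_neg h]; norm_num
  unfold Reg at hreg
  have hcr : cross w (n + 1) (w (n + 1)) (w n) ≤ -2 := by
    rw [cross_succ, cross_symm, if_neg (fun h => hadj.ne h.1), if_pos ⟨rfl, rfl⟩]
    omega
  unfold Good
  by_contra hcon
  push Not at hcon
  have hmem : w n ∈ G.neighborFinset (w (n + 1)) := by
    rw [SimpleGraph.mem_neighborFinset]
    exact hadj.symm
  rw [← add_sum_erase _ _ hmem] at hge
  have hle : ∑ y ∈ (G.neighborFinset (w (n + 1))).erase (w n), cross w (n + 1) (w (n + 1)) y ≤ 0 := by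
    refine sum_nonpos fun y hy => ?_
    have hy' := mem_of_mem_erase hy
    rw [SimpleGraph.mem_neighborFinset] at hy'
    exact hcon y hy'
  omega

theorem de_out : S_OUT := by
  intro V _ G _ w n hval hreg z
  obtain ⟨hv, hadj⟩ := val_succ hval
  unfold Reg at hreg
  unfold out
  have h1 : ∀ y ∈ G.neighborFinset z, (cross w (n + 1) z y).toNat =
      (cross w n z y).toNat + (if w n = z ∧ w (n + 1) = y then 1 else 0) := by
    intro y _
    rw [cross_succ]
    by_cases hA : w n = z ∧ w (n + 1) = y
    · have hB : ¬ (w n = y ∧ w (n + 1) = z) := by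
        intro h
        exact hadj.ne (h.1.trans hA.2.symm)
      rw [if_pos hA, if_neg hB, if_pos hA]
      rw [hA.1, hA.2] at hreg
      omega
    · rw [if_neg hA, if_neg hA]
      by_cases hB : w n = y ∧ w (n + 1) = z
      · rw [if_pos hB, cross_symm w n y z]
        rw [hB.1, hB.2] at hreg
        omega
      · rw [if_neg hB]
        omega
  rw [sum_congr rfl h1, sum_add_distrib]
  refine congrArg (fun t => ∑ y ∈ G.neighborFinset z, (cross w n z y).toNat + t) ?_
  have h2 := sum_first (G.neighborFinset z) (w n) (w (n + 1)) z (fun h => by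
    rw [SimpleGraph.mem_neighborFinset, ← h]
    exact hadj)
  by_cases hz : w n = z
  · rw [if_pos hz] at h2
    rw [if_pos hz.symm]
    exact_mod_cast h2
  · rw [if_neg hz] at h2
    rw [if_neg fun h => hz h.symm]
    exact_mod_cast h2

end Pool.Agent.H707
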