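import Pool.Agent.H979.FC.Stm

/-! # `S_SRV`: the events of reachability by present paths -/

set_option autoImplicit false

open MeasureTheory ProbabilityTheory Finset
open scoped ENNReal NNReal

namespace Pool.Agent.H707

namespace FCSRV

open Pool.Agent.H979.FC

theorem rf_mono {V : Type} {A A' : V × List V → Bool} (h : ∀ i, A i = true → A' i = true) {o y : V}
    (hy : RF A o y) : RF A' o y := by
  induction hy with
  | refl => exact Relation.ReflTransGen.refl
  | @tail b c _ hbc ih =>
    obtain ⟨l, hl, hm⟩ := hbc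
    exact Relation.ReflTransGen.tail ih ⟨l, h _ hl, hm⟩

theorem mem_steps_cons {V : Type} {x y : V} {l : List V} {i : V × List V} :
    i ∈ steps x (y :: l) ↔ i = (x, [y]) ∨ i ∈ steps y l := by
  simp only [steps, Finset.mem_insert]

theorem rf_fin {V : Type} [DecidableEq V] {A : V × List V → Bool} {o y : V} (hy : RF A o y) :
    ∃ F : Finset (V × List V), RF (fun i => A i && decide (i ∈ F)) o y := by
  induction hy with
  | refl => exact ⟨∅, Relation.ReflTransGen.refl⟩
  | @tail b c _ hbc ih =>
    obtain ⟨F, hF⟩ := ih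
    obtain ⟨l, hl, hm⟩ := hbc
    refine ⟨insert (b, l) F, ?_⟩
    have h1 : RF (fun i => A i && decide (i ∈ insert (b, l) F)) o b := by
      refine rf_mono ?_ hF
      intro i hi
      rw [Bool.and_eq_true, decide_eq_true_iff] at hi ⊢
      exact ⟨hi.1, Finset.mem_insert_of_mem hi.2⟩
    refine Relation.ReflTransGen.tail h1 ⟨l, ?_, hm⟩
    rw [Bool.and_eq_true, decide_eq_true_iff]
    exact ⟨hl, Finset.mem_insert_self _ _⟩

theorem rf_steps {V : Type} (l : List V) : ∀ (x : V) (A : V × List V → Bool),
    (∀ i ∈ steps x l, A i = true) → ∀ c ∈ l, RF A x c := by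
  induction l with
  | nil => intro x A _ c hc; exact absurd hc List.not_mem_nil
  | cons y l ih =>
    intro x A hA c hc
    have h0 : RF A x y := Relation.ReflTransGen.single
      ⟨[y], hA _ (mem_steps_cons.2 (Or.inl rfl)), List.mem_singleton_self y⟩
    rcases List.mem_cons.1 hc with h | h
    · rw [h]; exact h0
    · exact Relation.ReflTransGen.trans h0 (ih y A
        (fun i hi => hA i (mem_steps_cons.2 (Or.inr hi))) c h)

theorem survN_inc {V : Type} (o : V) (n : ℕ) : Inc (SurvN o n) := by
  intro A A' h hA
  exact le_trans hA (Set.encard_le_encard (fun y hy => rf_mono h hy))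

theorem survN_fin {V : Type} [DecidableEq V] (o : V) (n : ℕ) (A : V × List V → Bool)
    (hA : A ∈ SurvN o n) :
    ∃ F : Finset (V × List V), (fun i => A i && decide (i ∈ F)) ∈ SurvN o n := by
  obtain ⟨t, hts, htn⟩ := Set.exists_subset_encard_eq (show (n : ℕ∞) ≤ {y | RF A o y}.encard from hA)
  have htf : t.Finite := Set.finite_of_encard_eq_coe htn
  have hF : ∀ y : t, ∃ F : Finset (V × List V), RF (fun i => A i && decide (i ∈ F)) o y.1 :=
    fun y => rf_fin (hts y.2)
  choose F hF using hF
  have := htf.fintype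
  refine ⟨Finset.univ.biUnion F, ?_⟩
  have hsub : t ⊆ {y | RF (fun i => A i && decide (i ∈ Finset.univ.biUnion F)) o y} := by
    intro y hy
    rw [Set.mem_ofPred_eq]
    refine rf_mono ?_ (hF ⟨y, hy⟩)
    intro i hi
    rw [Bool.and_eq_true, decide_eq_true_iff] at hi ⊢
    exact ⟨hi.1, Finset.mem_biUnion.2 ⟨_, Finset.mem_univ _, hi.2⟩⟩
  have := Set.encard_le_encard hsub
  rw [htn] at this
  exact this

theorem survN_meas {V : Type} [Countable V] [DecidableEq V] (o : V) (n : ℕ) :
    MeasurableSet (SurvN o n) := by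
  have h : SurvN o n = ⋃ F : {F : Finset (V × List V) // (fun i => decide (i ∈ F)) ∈ SurvN o n},
      ⋂ i ∈ F.1, {A | A i = true} := by
    ext A
    rw [Set.mem_iUnion]
    constructor
    · intro hA
      obtain ⟨F, hF⟩ := survN_fin o n A hA
      refine ⟨⟨F.filter (fun i => A i = true), ?_⟩, ?_⟩
      · refine survN_inc o n _ _ ?_ hF
        intro i hi
        rw [Bool.and_eq_true, decide_eq_true_iff] at hi
        rw [decide_eq_true_iff, Finset.mem_filter]
        exact ⟨hi.2, hi.1⟩
      · rw [Set.mem_iInter₂]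
        intro i hi
        exact (Finset.mem_filter.1 hi).2
    · rintro ⟨⟨F, hF⟩, hA⟩
      rw [Set.mem_iInter₂] at hA
      refine survN_inc o n _ _ ?_ hF
      intro i hi
      exact hA i (of_decide_eq_true hi)
  rw [h]
  refine MeasurableSet.iUnion fun F => Finset.measurableSet_biInter _ fun i _ => ?_
  have h2 : MeasurableSet ((fun A : V × List V → Bool => A i) ⁻¹' {true}) :=
    measurable_pi_apply i (measurableSet_singleton true)
  exact h2

theorem surv_eq {V : Type} (o : V) : Surv o = ⋂ n, SurvN o n := by
  ext A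
  rw [Set.mem_iInter]
  constructor
  · intro hA n
    have h : {y | RF A o y}.encard = ⊤ := Set.encard_eq_top_iff.2 hA
    show (n : ℕ∞) ≤ {y | RF A o y}.encard
    rw [h]
    exact le_top
  · intro hA
    show {y | RF A o y}.Infinite
    rw [← Set.encard_eq_top_iff]
    exact ENat.eq_top_iff_forall_ge.2 hA

end FCSRV

open FCSRV Pool.Agent.H979.FC

theorem fc_srv : S_SRV := by
  intro V _ _ o
  refine ⟨?_, ?_, fun n => ⟨survN_meas o n, survN_inc o n⟩, surv_eq o, ?_, ?_, ?_⟩
  · rw [surv_eq]
    exact MeasurableSet.iInter fun n => survN_meas o n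
  · intro A A' h hA
    exact Set.Infinite.mono (fun y hy => rf_mono h hy) hA
  · intro m n hmn A hA
    have hA' : (n : ℕ∞) ≤ {y | RF A o y}.encard := hA
    exact le_trans (Nat.cast_le.2 hmn) hA'
  · intro n A hA
    exact survN_fin o n A hA
  · intro n x l A hA
    refine le_trans hA (Set.encard_le_encard ?_)
    intro y hy
    have hA2 : ∀ i, A i = true → (A i || decide (i ∈ steps x l)) = true := by
      intro i hi
      rw [hi]; rfl
    have hstep : ∀ c ∈ l, RF (fun i => A i || decide (i ∈ steps x l)) x c :=
      rf_steps l x _ (fun i hi => by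
        rw [Bool.or_eq_true, decide_eq_true_iff]; exact Or.inr hi)
    induction (show RF (Function.update A (x, l) true) o y from hy) with
    | refl => exact Relation.ReflTransGen.refl
    | @tail b c hob hbc ih =>
      obtain ⟨l', hl', hm⟩ := hbc
      have h1 := ih hob
      by_cases h : (b, l') = (x, l)
      · obtain ⟨rfl, rfl⟩ := Prod.mk.inj h
        exact Relation.ReflTransGen.trans h1 (hstep c hm)
      · rw [Function.update_of_ne h] at hl'
        exact Relation.ReflTransGen.tail h1 ⟨l', hA2 _ hl', hm⟩

end Pool.Agent.H707
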