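import Pool.Agent.H193.OZ.Stm

/-!
# Separability of `ℓ²`, independent sets, functoriality of the elementary groups
-/

set_option autoImplicit false

namespace Pool.Agent.H707.OZQ

open Pool.Agent.H193.OZ
open Pool.Agent.H258.CR (Lam ee el el_coe el_mem)
open TopologicalSpace

theorem sep (H : Type) [Countable H] : SeparableSpace (L2 H) := by
  classical
  have b : HilbertBasis H ℂ (L2 H) := HilbertBasis.ofRepr (LinearIsometryEquiv.refl ℂ (L2 H))
  rw [← isSeparable_univ_iff]
  have h1 : IsSeparable (Set.range b) := (Set.countable_range b).isSeparable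
  have h2 : IsSeparable ((Submodule.span ℂ (Set.range b) : Submodule ℂ (L2 H)) : Set (L2 H)) :=
    h1.span
  have h3 := h2.closure
  have h4 : closure ((Submodule.span ℂ (Set.range b) : Submodule ℂ (L2 H)) : Set (L2 H)) =
      Set.univ := by
    have h := congrArg (fun S : Submodule ℂ (L2 H) => (S : Set (L2 H))) b.dense_span
    exact h
  rwa [h4] at h3

theorem s_Q : S_Q := by
  intro H _ Q ι _ A hA F ε hε
  classical
  have := Fintype.ofFinite Q
  have := sep H
  obtain ⟨D, hD1, hD2⟩ := exists_countable_dense (Q → L2 H)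
  have hex : ∀ i : ι, ∃ y ∈ D, dist (F i) y < ε / 2 := fun i =>
    hD2.exists_dist_lt (F i) (half_pos hε)
  choose d hd1 hd2 using hex
  by_contra hcon
  push Not at hcon
  apply hA
  refine Set.MapsTo.countable_of_injOn (f := d) (t := D) (fun i _ => hd1 i) ?_ hD1
  intro i hi j hj hij
  by_contra hne
  obtain ⟨s, hs⟩ := hcon i hi j hj hne
  have h1 : dist (F i) (F j) < ε := by
    have h2 := dist_triangle_right (F i) (F j) (d i)
    have h3 := hd2 i
    have h4 := hd2 j
    rw [← hij] at h4
    linarith
  have h2 := dist_le_pi_dist (F i) (F j) s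
  rw [dist_eq_norm] at h2
  linarith

theorem s_D : S_D := by
  intro R hsymm hcnt
  classical
  -- the classes are countable
  have hcl : ∀ a : ℕ → Bool, {b | Relation.EqvGen R b a}.Countable := by
    intro a
    set L : ℕ → Set (ℕ → Bool) := fun n => Nat.rec {a} (fun _ S => ⋃ b ∈ S, {c | R c b}) n with hL
    have hL1 : ∀ n, L (n + 1) = ⋃ b ∈ L n, {c | R c b} := fun n => rfl
    have hLc : ∀ n, (L n).Countable := by
      intro n
      induction n with
      | zero => exact Set.countable_singleton a
      | succ n ih =>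
        rw [hL1]
        exact ih.biUnion fun b _ => hcnt b
    have hS : ∀ x y, Relation.EqvGen R x y → (x ∈ ⋃ n, L n ↔ y ∈ ⋃ n, L n) := by
      intro x y h
      induction h with
      | rel x y h =>
        constructor
        · intro hx
          obtain ⟨n, hn⟩ := Set.mem_iUnion.1 hx
          refine Set.mem_iUnion.2 ⟨n + 1, ?_⟩
          rw [hL1]
          exact Set.mem_biUnion hn (hsymm _ _ h)
        · intro hx
          obtain ⟨n, hn⟩ := Set.mem_iUnion.1 hx
          refine Set.mem_iUnion.2 ⟨n + 1, ?_⟩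
          rw [hL1]
          exact Set.mem_biUnion hn h
      | refl x => exact Iff.rfl
      | symm x y _ ih => exact ih.symm
      | trans x y z _ _ ih1 ih2 => exact ih1.trans ih2
    refine (Set.countable_iUnion hLc).mono fun b hb => ?_
    exact (hS b a hb).2 (Set.mem_iUnion.2 ⟨0, rfl⟩)
  let st : Setoid (ℕ → Bool) := Relation.EqvGen.setoid R
  have hst : ∀ a b : ℕ → Bool, (Quotient.mk st a = Quotient.mk st b) ↔ Relation.EqvGen R a b :=
    fun a b => Quotient.eq
  have hcont : Cardinal.mk (ℕ → Bool) = Cardinal.continuum := by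
    simp
  -- the number of classes
  have hQ : Cardinal.continuum ≤ Cardinal.mk (Quotient st) := by
    by_contra hlt
    push Not at hlt
    have h1 : Cardinal.mk (ℕ → Bool) ≤ Cardinal.mk (Quotient st) * Cardinal.aleph0 := by
      rw [← (Equiv.sigmaFiberEquiv (Quotient.mk st)).cardinal_eq, Cardinal.mk_sigma]
      refine (Cardinal.sum_le_sum _ (fun _ => Cardinal.aleph0) fun q => ?_).trans ?_
      · obtain ⟨a, rfl⟩ := Quotient.exists_rep q
        have h2 : ({b | Relation.EqvGen R b a} : Set (ℕ → Bool)).Countable := hcl a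
        have h3 : Cardinal.mk {b // Quotient.mk st b = Quotient.mk st a} =
            Cardinal.mk ({b | Relation.EqvGen R b a} : Set (ℕ → Bool)) :=
          Cardinal.mk_congr (Equiv.subtypeEquivRight fun b => hst b a)
        rw [h3]
        exact Cardinal.le_aleph0_iff_set_countable.2 h2
      · rw [Cardinal.sum_const']
    rw [hcont] at h1
    exact absurd h1 (not_le.2 (Cardinal.mul_lt_of_lt Cardinal.aleph0_le_continuum hlt
      Cardinal.aleph0_lt_continuum))
  refine ⟨Set.range (Quotient.out : Quotient st → (ℕ → Bool)), ?_, ?_⟩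
  · rw [Cardinal.mk_range_eq _ Quotient.out_injective]
    refine le_antisymm ?_ hQ
    rw [← hcont]
    exact Cardinal.mk_quotient_le
  · rintro _ ⟨x, rfl⟩ _ ⟨y, rfl⟩ hne hR
    apply hne
    have h := (hst x.out y.out).2 (Relation.EqvGen.rel _ _ hR)
    rw [Quotient.out_eq, Quotient.out_eq] at h
    rw [h]

theorem s_F : S_F := by
  intro A B _ _ f
  let M : (Matrix (Fin 3) (Fin 3) A)ˣ →* (Matrix (Fin 3) (Fin 3) B)ˣ :=
    Units.map (RingHom.mapMatrix f : Matrix (Fin 3) (Fin 3) A →+* Matrix (Fin 3) (Fin 3) B)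
  have hM : ∀ (i j : Fin 3) (h : i ≠ j) (r : A), M (el h r) = el h (f r) := by
    intro i j h r
    refine Units.ext ?_
    show RingHom.mapMatrix f ((el h r : (Matrix (Fin 3) (Fin 3) A)ˣ) : Matrix (Fin 3) (Fin 3) A) =
      ((el h (f r) : (Matrix (Fin 3) (Fin 3) B)ˣ) : Matrix (Fin 3) (Fin 3) B)
    rw [el_coe, el_coe, map_add, map_one, RingHom.mapMatrix_apply, Matrix.map_single]
  have hle : Lam A ≤ (Lam B).comap M := by
    unfold Lam
    rw [Subgroup.closure_le]
    rintro _ ⟨i, j, h, r, rfl⟩
    show M (el h r) ∈ Lam B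
    rw [hM]
    exact el_mem h (f r)
  refine ⟨(M.comp (Lam A).subtype).codRestrict (Lam B) fun x => hle x.2, ?_⟩
  intro i j h r
  exact Subtype.ext (hM i j h r)

end Pool.Agent.H707.OZQ
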