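import Pool.Agent.H770.GS.TF

/-! # `S_TF17`: the lower bound for `JL` -/

set_option autoImplicit false

open MeasureTheory Set intervalIntegral Filter Topology

namespace Pool.Agent.H707.TF17

open Pool.Agent.H770.GS

theorem gg_nonneg {τ : ℝ} (h0 : 0 ≤ τ) (h1 : τ ≤ Real.pi) : 0 ≤ gg τ := by
  unfold gg
  refine mul_nonneg (Real.sin_nonneg_of_nonneg_of_le_pi h0 h1) ?_
  rcases lt_or_ge τ (Real.pi / 2) with h | h
  · rcases eq_or_lt_of_le h0 with h2 | h2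
    · rw [← h2]; simp
    · have h3 := Real.lt_tan h2 h
      have h4 : 0 < Real.cos τ := Real.cos_pos_of_mem_Ioo ⟨by linarith, h⟩
      rw [Real.tan_eq_sin_div_cos, lt_div_iff₀ h4] at h3
      linarith
  · have h2 := Real.sin_nonneg_of_nonneg_of_le_pi h0 h1
    have h3 : Real.cos τ ≤ 0 := Real.cos_nonpos_of_pi_div_two_le_of_le h (by linarith [Real.pi_pos])
    nlinarith

theorem gg_cont : Continuous gg := by
  unfold gg
  fun_prop

theorem t_TF17 : S_TF17 := by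
  rintro ⟨m0, m2, m2', m4, m4', m6⟩ p q hp hp' hq hq'
  obtain ⟨d, hd⟩ : ∃ d, d = (0.32 - q) / 2 := ⟨_, rfl⟩
  have hd0 : 0 ≤ d := by rw [hd]; linarith
  rw [← hd]
  have hc := gg_cont
  have hpi := Real.pi_pos
  have hpi2 : Real.pi ^ 2 ≤ 10 := by
    have := Real.pi_lt_d2
    nlinarith
  have key : ∀ τ ∈ Icc (0:ℝ) Real.pi,
      gg τ * Real.exp (-(0.16 * τ ^ 2)) + (d - p) * (gg τ * τ ^ 2 * Real.exp (-(0.16 * τ ^ 2))) +
        (d ^ 2 / 2 - p * d) * (gg τ * τ ^ 4 * Real.exp (-(0.16 * τ ^ 2))) -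
        p * d ^ 2 / 2 * (gg τ * τ ^ 6 * Real.exp (-(0.16 * τ ^ 2))) ≤
      gg τ * (1 - p * τ ^ 2) * Real.exp (-(q * τ ^ 2 / 2)) := by
    intro τ hτ
    have h1 := gg_nonneg hτ.1 hτ.2
    have h2 : 0 ≤ 1 - p * τ ^ 2 := by
      have h3 : τ ^ 2 ≤ Real.pi ^ 2 := by
        have := hτ.1; have := hτ.2; gcongr
      nlinarith [sq_nonneg τ]
    have h4 : Real.exp (-(q * τ ^ 2 / 2)) = Real.exp (-(0.16 * τ ^ 2)) * Real.exp (d * τ ^ 2) := by
      rw [← Real.exp_add]; congr 1; rw [hd]; ring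
    have h5 := Real.quadratic_le_exp_of_nonneg (x := d * τ ^ 2) (by positivity)
    have h6 : 0 ≤ gg τ * (1 - p * τ ^ 2) * Real.exp (-(0.16 * τ ^ 2)) := by positivity
    calc _ = gg τ * (1 - p * τ ^ 2) * Real.exp (-(0.16 * τ ^ 2)) *
          (1 + d * τ ^ 2 + (d * τ ^ 2) ^ 2 / 2) := by ring
      _ ≤ gg τ * (1 - p * τ ^ 2) * Real.exp (-(0.16 * τ ^ 2)) * Real.exp (d * τ ^ 2) :=
          mul_le_mul_of_nonneg_left h5 h6
      _ = _ := by rw [h4]; ring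
  have hI : ∀ f : ℝ → ℝ, Continuous f → IntervalIntegrable f volume 0 Real.pi := fun f hf =>
    hf.intervalIntegrable _ _
  have i0 := hI (fun τ => gg τ * Real.exp (-(0.16 * τ ^ 2))) (by fun_prop)
  have i2 := hI (fun τ => (d - p) * (gg τ * τ ^ 2 * Real.exp (-(0.16 * τ ^ 2)))) (by fun_prop)
  have i4 := hI (fun τ => (d ^ 2 / 2 - p * d) * (gg τ * τ ^ 4 * Real.exp (-(0.16 * τ ^ 2)))) (by fun_prop)
  have i6 := hI (fun τ => p * d ^ 2 / 2 * (gg τ * τ ^ 6 * Real.exp (-(0.16 * τ ^ 2)))) (by fun_prop)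
  have iR := hI (fun τ => gg τ * (1 - p * τ ^ 2) * Real.exp (-(q * τ ^ 2 / 2))) (by fun_prop)
  have hle := intervalIntegral.integral_mono_on hpi.le (((i0.add i2).add i4).sub i6) iR key
  have e1 : (∫ τ in (0:ℝ)..Real.pi, (gg τ * Real.exp (-(0.16 * τ ^ 2)) +
        (d - p) * (gg τ * τ ^ 2 * Real.exp (-(0.16 * τ ^ 2))) +
        (d ^ 2 / 2 - p * d) * (gg τ * τ ^ 4 * Real.exp (-(0.16 * τ ^ 2))) -
        p * d ^ 2 / 2 * (gg τ * τ ^ 6 * Real.exp (-(0.16 * τ ^ 2))))) =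
      (∫ τ in (0:ℝ)..Real.pi, gg τ * Real.exp (-(0.16 * τ ^ 2))) +
        (d - p) * (∫ τ in (0:ℝ)..Real.pi, gg τ * τ ^ 2 * Real.exp (-(0.16 * τ ^ 2))) +
        (d ^ 2 / 2 - p * d) * (∫ τ in (0:ℝ)..Real.pi, gg τ * τ ^ 4 * Real.exp (-(0.16 * τ ^ 2))) -
        p * d ^ 2 / 2 * (∫ τ in (0:ℝ)..Real.pi, gg τ * τ ^ 6 * Real.exp (-(0.16 * τ ^ 2))) := by
    rw [intervalIntegral.integral_sub ((i0.add i2).add i4) i6,
      intervalIntegral.integral_add (i0.add i2) i4, intervalIntegral.integral_add i0 i2,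
      intervalIntegral.integral_const_mul, intervalIntegral.integral_const_mul,
      intervalIntegral.integral_const_mul]
  have hle' : _ ≤ JL p q := hle
  rw [e1] at hle'
  refine le_trans ?_ hle'
  have a1 := mul_le_mul_of_nonneg_left m2 hd0
  have a2 := mul_le_mul_of_nonneg_left m2' hp
  have a3 := mul_le_mul_of_nonneg_left m4 (by positivity : 0 ≤ d ^ 2 / 2)
  have a4 := mul_le_mul_of_nonneg_left m4' (by positivity : 0 ≤ p * d)
  have a5 := mul_le_mul_of_nonneg_left m6 (by positivity : 0 ≤ p * d ^ 2 / 2)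
  linarith

end Pool.Agent.H707.TF17
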